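import Pool.Agent.helper26.IM.Defs

/-!
# Project im: basic lemmas (helper26)
-/

set_option autoImplicit false

open Finset

namespace Pool.Agent.helper26.IM

open Pool.Agent.RRank Pool.Agent.helper35.MR

section S3

variable {X Y Z K : Type} [Field K]

theorem S3.mono {T : X → Y → Z → K} {r r' : ℕ} (h : S3 T r) (hr : r ≤ r') : S3 T r' := by
  obtain ⟨p, q, s, a, b, c, d, e, f, h1, h2⟩ := h
  exact ⟨p, q, s, a, b, c, d, e, f, h1.trans hr, h2⟩

/-- decompositions indexed by finite types -/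
theorem S3.of_fintype {T : X → Y → Z → K} {P Q S : Type} [Fintype P] [Fintype Q] [Fintype S]
    (a : P → X → K) (b : P → Y → Z → K) (c : Q → Y → K) (d : Q → X → Z → K) (e : S → Z → K)
    (f : S → X → Y → K) {r : ℕ} (hr : Fintype.card P + Fintype.card Q + Fintype.card S ≤ r)
    (h : ∀ x y z, T x y z = ∑ i, a i x * b i y z + ∑ j, c j y * d j x z + ∑ k, e k z * f k x y) :
    S3 T r := by
  classical
  refine ⟨Fintype.card P, Fintype.card Q, Fintype.card S, fun i => a ((Fintype.equivFin P).symm i),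
    fun i => b ((Fintype.equivFin P).symm i), fun i => c ((Fintype.equivFin Q).symm i),
    fun i => d ((Fintype.equivFin Q).symm i), fun i => e ((Fintype.equivFin S).symm i),
    fun i => f ((Fintype.equivFin S).symm i), hr, fun x y z => ?_⟩
  rw [h, Equiv.sum_comp (Fintype.equivFin P).symm (fun i => a i x * b i y z),
    Equiv.sum_comp (Fintype.equivFin Q).symm (fun i => c i y * d i x z),
    Equiv.sum_comp (Fintype.equivFin S).symm (fun i => e i z * f i x y)]

theorem S3.comp {T : X → Y → Z → K} {r : ℕ} (h : S3 T r) {X' Y' Z' : Type} (f : X' → X) (g : Y' → Y)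
    (k : Z' → Z) : S3 (fun x y z => T (f x) (g y) (k z)) r := by
  obtain ⟨p, q, s, a, b, c, d, e, f', h1, h2⟩ := h
  exact ⟨p, q, s, fun i x => a i (f x), fun i y z => b i (g y) (k z), fun i y => c i (g y),
    fun i x z => d i (f x) (k z), fun i z => e i (k z), fun i x y => f' i (f x) (g y), h1,
    fun x y z => h2 _ _ _⟩

theorem S3.swap12 {T : X → Y → Z → K} {r : ℕ} (h : S3 T r) : S3 (fun y x z => T x y z) r := by
  obtain ⟨p, q, s, a, b, c, d, e, f, h1, h2⟩ := h
  exact ⟨q, p, s, c, d, a, b, e, fun k y x => f k x y, by omega, fun y x z => by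
    dsimp only; rw [h2]; ring⟩

theorem S3.swap13 {T : X → Y → Z → K} {r : ℕ} (h : S3 T r) : S3 (fun z y x => T x y z) r := by
  obtain ⟨p, q, s, a, b, c, d, e, f, h1, h2⟩ := h
  exact ⟨s, q, p, e, fun k y x => f k x y, c, fun j z x => d j x z, a, fun i z y => b i y z,
    by omega, fun z y x => by dsimp only; rw [h2]; ring⟩

theorem S3.swap23 {T : X → Y → Z → K} {r : ℕ} (h : S3 T r) : S3 (fun x z y => T x y z) r := by
  obtain ⟨p, q, s, a, b, c, d, e, f, h1, h2⟩ := h
  exact ⟨p, s, q, a, fun i z y => b i y z, e, f, c, d, by omega, fun x z y => by dsimp only; rw [h2]; ring⟩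

theorem S3.map {T : X → Y → Z → K} {r : ℕ} (h : S3 T r) {L : Type} [Field L] (φ : K →+* L) :
    S3 (fun x y z => φ (T x y z)) r := by
  obtain ⟨p, q, s, a, b, c, d, e, f, h1, h2⟩ := h
  exact ⟨p, q, s, fun i x => φ (a i x), fun i y z => φ (b i y z), fun i y => φ (c i y),
    fun i x z => φ (d i x z), fun i z => φ (e i z), fun i x y => φ (f i x y), h1,
    fun x y z => by dsimp only; rw [h2]; simp [map_sum]⟩

theorem S3.add {T T' : X → Y → Z → K} {r r' : ℕ} (h : S3 T r) (h' : S3 T' r') :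
    S3 (fun x y z => T x y z + T' x y z) (r + r') := by
  obtain ⟨p, q, s, a, b, c, d, e, f, h1, h2⟩ := h
  obtain ⟨p', q', s', a', b', c', d', e', f', h1', h2'⟩ := h'
  refine S3.of_fintype (P := Fin p ⊕ Fin p') (Q := Fin q ⊕ Fin q') (S := Fin s ⊕ Fin s')
    (Sum.elim a a') (Sum.elim b b') (Sum.elim c c') (Sum.elim d d') (Sum.elim e e')
    (Sum.elim f f') (by simp; omega) fun x y z => ?_
  rw [h2, h2']
  simp only [Fintype.sum_sum_type, Sum.elim_inl, Sum.elim_inr]
  ring

theorem S3.slice1 (a : X → K) (b : Y → Z → K) : S3 (fun x y z => a x * b y z) 1 :=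
  ⟨1, 0, 0, fun _ => a, fun _ => b, fun i => i.elim0, fun i => i.elim0, fun i => i.elim0,
    fun i => i.elim0, le_rfl, fun x y z => by simp⟩

theorem S3.slice2 (c : Y → K) (d : X → Z → K) : S3 (fun x y z => c y * d x z) 1 :=
  ⟨0, 1, 0, fun i => i.elim0, fun i => i.elim0, fun _ => c, fun _ => d, fun i => i.elim0,
    fun i => i.elim0, le_rfl, fun x y z => by simp⟩

theorem S3.slice3 (e : Z → K) (f : X → Y → K) : S3 (fun x y z => e z * f x y) 1 :=
  ⟨0, 0, 1, fun i => i.elim0, fun i => i.elim0, fun i => i.elim0, fun i => i.elim0, fun _ => e,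
    fun _ => f, le_rfl, fun x y z => by simp⟩

/-- multiplication of `T` by a function `a x`, for instance an indicator function -/
theorem S3.smul1 {T : X → Y → Z → K} {r : ℕ} (h : S3 T r) (u : X → K) :
    S3 (fun x y z => u x * T x y z) r := by
  obtain ⟨p, q, s, a, b, c, d, e, f, h1, h2⟩ := h
  refine ⟨p, q, s, fun i x => u x * a i x, b, c, fun i x z => u x * d i x z, e,
    fun i x y => u x * f i x y, h1, fun x y z => ?_⟩
  dsimp only
  rw [h2, mul_add, mul_add, Finset.mul_sum, Finset.mul_sum, Finset.mul_sum]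
  congr 1
  · congr 1
    · exact Finset.sum_congr rfl fun i _ => by ring
    · exact Finset.sum_congr rfl fun i _ => by ring
  · exact Finset.sum_congr rfl fun i _ => by ring

/-- linear combinations of rows in the first direction -/
theorem S3.lin1 {T : X → Y → Z → K} {r : ℕ} (h : S3 T r) {X' : Type} {ι : Type} [Fintype ι]
    (f : X' → ι → X) (c : X' → ι → K) : S3 (fun x' y z => ∑ i, c x' i * T (f x' i) y z) r := by
  obtain ⟨p, q, s, a, b, c', d, e, f', h1, h2⟩ := h
  refine ⟨p, q, s, fun i x' => ∑ j, c x' j * a i (f x' j), b, c',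
    fun i x' z => ∑ j, c x' j * d i (f x' j) z, e, fun i x' y => ∑ j, c x' j * f' i (f x' j) y,
    h1, fun x' y z => ?_⟩
  simp only [h2, mul_add, Finset.sum_add_distrib, Finset.mul_sum, Finset.sum_mul]
  congr 1
  · congr 1
    · rw [Finset.sum_comm]
      exact Finset.sum_congr rfl fun i _ => Finset.sum_congr rfl fun j _ => by ring
    · rw [Finset.sum_comm]
      exact Finset.sum_congr rfl fun i _ => Finset.sum_congr rfl fun j _ => by ring
  · rw [Finset.sum_comm]
    exact Finset.sum_congr rfl fun i _ => Finset.sum_congr rfl fun j _ => by ring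

end S3

section Full

variable {X Y Z K : Type} [Field K]

theorem ev3_swap12 {ι : Type} [Fintype ι] (M : ι → ι → ι → K) (u v w : ι → K) :
    ev3 (fun j i k => M i j k) v u w = ev3 M u v w := by
  unfold ev3
  rw [Finset.sum_comm]
  exact Finset.sum_congr rfl fun i _ => Finset.sum_congr rfl fun j _ =>
    Finset.sum_congr rfl fun k _ => by ring

theorem ev3_swap13 {ι : Type} [Fintype ι] (M : ι → ι → ι → K) (u v w : ι → K) :
    ev3 (fun k j i => M i j k) w v u = ev3 M u v w := by
  unfold ev3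
  rw [show (∑ k, ∑ j, ∑ i, M i j k * (w k * v j * u i)) =
    ∑ k, ∑ i, ∑ j, M i j k * (w k * v j * u i) from
      Finset.sum_congr rfl fun k _ => Finset.sum_comm]
  rw [Finset.sum_comm]
  refine Finset.sum_congr rfl fun i _ => ?_
  rw [Finset.sum_comm]
  exact Finset.sum_congr rfl fun j _ => Finset.sum_congr rfl fun k _ => by ring

theorem Full3.swap12 {ι : Type} [Fintype ι] {M : ι → ι → ι → K} (h : Full3 M) :
    Full3 (fun j i k => M i j k) := by
  intro U V W hd
  obtain ⟨u, hu, v, hv, w, hw, h1⟩ := h V U W (by omega)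
  exact ⟨v, hv, u, hu, w, hw, by rw [ev3_swap12]; exact h1⟩

theorem Full3.swap13 {ι : Type} [Fintype ι] {M : ι → ι → ι → K} (h : Full3 M) :
    Full3 (fun k j i => M i j k) := by
  intro U V W hd
  obtain ⟨u, hu, v, hv, w, hw, h1⟩ := h W V U (by omega)
  exact ⟨w, hw, v, hv, u, hu, by rw [ev3_swap13]; exact h1⟩

theorem HasFull.swap12 {T : X → Y → Z → K} {l : ℕ} (h : HasFull T l) :
    HasFull (fun y x z => T x y z) l := by
  obtain ⟨x, y, z, h⟩ := h
  exact ⟨y, x, z, Full3.swap12 h⟩

theorem HasFull.swap13 {T : X → Y → Z → K} {l : ℕ} (h : HasFull T l) :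
    HasFull (fun z y x => T x y z) l := by
  obtain ⟨x, y, z, h⟩ := h
  exact ⟨z, y, x, Full3.swap13 h⟩

theorem HasFull.of_comp {T : X → Y → Z → K} {l : ℕ} {X' Y' Z' : Type} (f : X' → X) (g : Y' → Y)
    (k : Z' → Z) (h : HasFull (fun x y z => T (f x) (g y) (k z)) l) : HasFull T l := by
  obtain ⟨x, y, z, h⟩ := h
  exact ⟨fun i => f (x i), fun i => g (y i), fun i => k (z i), h⟩

/-- reindexing of a full tensor -/
theorem Full3.reindex {ι κ : Type} [Fintype ι] [Fintype κ] {M : ι → ι → ι → K} (h : Full3 M)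
    (e : κ ≃ ι) : Full3 (fun i j k => M (e i) (e j) (e k)) := by
  intro U V W hd
  let E : (κ → K) ≃ₗ[K] (ι → K) := LinearEquiv.funCongrLeft K K e.symm
  have hcard : Fintype.card κ = Fintype.card ι := Fintype.card_congr e
  have hfin : ∀ U : Submodule K (κ → K), Module.finrank K (U.map (E : (κ → K) →ₗ[K] (ι → K))) =
      Module.finrank K U := fun U => LinearEquiv.finrank_map_eq E U
  obtain ⟨u, ⟨u', hu, rfl⟩, v, ⟨v', hv, rfl⟩, w, ⟨w', hw, rfl⟩, h1⟩ :=
    h (U.map (E : (κ → K) →ₗ[K] (ι → K))) (V.map (E : (κ → K) →ₗ[K] (ι → K)))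
      (W.map (E : (κ → K) →ₗ[K] (ι → K))) (by rw [hfin, hfin, hfin]; omega)
  refine ⟨u', hu, v', hv, w', hw, ?_⟩
  convert h1 using 1
  unfold ev3
  rw [← Equiv.sum_comp e]
  refine Finset.sum_congr rfl fun i _ => ?_
  rw [← Equiv.sum_comp e]
  refine Finset.sum_congr rfl fun j _ => ?_
  rw [← Equiv.sum_comp e]
  refine Finset.sum_congr rfl fun k _ => ?_
  simp [E, LinearEquiv.funCongrLeft, LinearMap.funLeft]

/-- full minors indexed by any finite type with `l` elements -/
theorem HasFull.of_fintype {T : X → Y → Z → K} {l : ℕ} {ι : Type} [Fintype ι]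
    (hι : Fintype.card ι = l) (x : ι → X) (y : ι → Y) (z : ι → Z)
    (h : Full3 (fun i j k => T (x i) (y j) (z k))) : HasFull T l := by
  subst hι
  refine ⟨fun i => x ((Fintype.equivFin ι).symm i), fun i => y ((Fintype.equivFin ι).symm i),
    fun i => z ((Fintype.equivFin ι).symm i), ?_⟩
  exact Full3.reindex h (Fintype.equivFin ι).symm

end Full

end Pool.Agent.helper26.IM
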