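import Mathlib
import Pool.Agent.helper26.RRank
import Pool.Agent.helper35.MR.Defs

/-!
# Project im: full minors of order 3 tensors of large slice rank over all fields (helper26)

Definitions.

* `S3 T r`: the order 3 tensor `T : X → Y → Z → K` is a sum of at most `r` slices;
* `HasFull T l`: `T` has a full minor with all sides `l` (`Full3` of `Pool/Agent/helper35/MR/Defs.lean`);
* `Star l`: there is `G` such that over every algebraically closed field `¬ S3 T G` implies `HasFull T l`;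
* `NF M`: certificate that `M` is not full;
* `UF 𝓅 K`: the ultraproduct of a family of fields, `UF.mk`, `UF.const`;
* `Eqn`, `Ex`, `FS1`, `Blk`, `DI`, `Good`: the tools of the main proof.
-/

set_option autoImplicit false

open Finset

namespace Pool.Agent.helper26.IM

open Pool.Agent.RRank Pool.Agent.helper35.MR

/-! ## Slices, full minors -/

/-- `T` is a sum of at most `r` slices -/
def S3 {X Y Z K : Type} [Field K] (T : X → Y → Z → K) (r : ℕ) : Prop :=
  ∃ (p q s : ℕ) (a : Fin p → X → K) (b : Fin p → Y → Z → K) (c : Fin q → Y → K)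
    (d : Fin q → X → Z → K) (e : Fin s → Z → K) (f : Fin s → X → Y → K), p + q + s ≤ r ∧
    ∀ x y z, T x y z = ∑ i, a i x * b i y z + ∑ j, c j y * d j x z + ∑ k, e k z * f k x y

/-- `T` has a full minor with all sides `l` -/
def HasFull {X Y Z K : Type} [Field K] (T : X → Y → Z → K) (l : ℕ) : Prop :=
  ∃ (x : Fin l → X) (y : Fin l → Y) (z : Fin l → Z), Full3 (fun i j k => T (x i) (y j) (z k))

/-- the theorem for full `l`-minors over algebraically closed fields -/
def Star (l : ℕ) : Prop :=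
  ∃ G : ℕ, ∀ (K : Type) [Field K] [IsAlgClosed K] (X Y Z : Type) (T : X → Y → Z → K),
    ¬ S3 T G → HasFull T l

/-- certificate for a tensor which is not full: bases of the three subspaces in echelon form -/
def NF {ι K : Type} [Fintype ι] [Field K] (M : ι → ι → ι → K) : Prop :=
  ∃ (p q r : ℕ) (A : Fin p → ι → K) (B : Fin q → ι → K) (C : Fin r → ι → K)
    (s : Fin p → ι) (t : Fin q → ι) (u : Fin r → ι), 2 * Fintype.card ι < p + q + r ∧
    (∀ a b, A a (s b) = if a = b then 1 else 0) ∧ (∀ a b, B a (t b) = if a = b then 1 else 0) ∧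
    (∀ a b, C a (u b) = if a = b then 1 else 0) ∧ ∀ a b c, ev3 M (A a) (B b) (C c) = 0

/-! ## Ultraproducts of fields -/

/-- the ideal of the families which vanish almost everywhere -/
def uid {Ω : Type} (𝓅 : Ultrafilter Ω) (K : Ω → Type) [∀ ω, Field (K ω)] : Ideal (∀ ω, K ω) where
  carrier := {f | ∀ᶠ ω in (𝓅 : Filter Ω), f ω = 0}
  add_mem' := by
    intro f g hf hg
    filter_upwards [hf, hg] with ω h1 h2
    simp [h1, h2]
  zero_mem' := by simp
  smul_mem' := by
    intro c f hf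
    filter_upwards [hf] with ω h
    simp [h]

theorem mem_uid {Ω : Type} {𝓅 : Ultrafilter Ω} {K : Ω → Type} [∀ ω, Field (K ω)]
    {f : ∀ ω, K ω} : f ∈ uid 𝓅 K ↔ ∀ᶠ ω in (𝓅 : Filter Ω), f ω = 0 := Iff.rfl

instance uid_isMaximal {Ω : Type} (𝓅 : Ultrafilter Ω) (K : Ω → Type) [∀ ω, Field (K ω)] :
    (uid 𝓅 K).IsMaximal := by
  classical
  rw [Ideal.isMaximal_iff]
  constructor
  · intro h
    rw [mem_uid] at h
    have h2 : ∀ᶠ ω in (𝓅 : Filter Ω), False := by
      filter_upwards [h] with ω hω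
      exact one_ne_zero hω
    exact (𝓅.neBot.ne) (Filter.eventually_false_iff_eq_bot.1 h2)
  · intro J f hJ hf hfJ
    rw [mem_uid, ← Ultrafilter.eventually_not] at hf
    have h1 : (fun ω => 1 - f ω * (f ω)⁻¹ : ∀ ω, K ω) ∈ uid 𝓅 K := by
      rw [mem_uid]
      filter_upwards [hf] with ω hω
      rw [mul_inv_cancel₀ hω, sub_self]
    have h2 : (fun ω => f ω * (f ω)⁻¹ : ∀ ω, K ω) ∈ J := by
      have := J.mul_mem_left (fun ω => (f ω)⁻¹) hfJ
      convert this using 1
      funext ω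
      simp [mul_comm]
    have h3 := J.add_mem (hJ h1) h2
    convert h3 using 1
    funext ω
    simp

/-- the ultraproduct of a family of fields -/
def UF {Ω : Type} (𝓅 : Ultrafilter Ω) (K : Ω → Type) [∀ ω, Field (K ω)] : Type :=
  (∀ ω, K ω) ⧸ uid 𝓅 K

noncomputable instance {Ω : Type} (𝓅 : Ultrafilter Ω) (K : Ω → Type) [∀ ω, Field (K ω)] :
    Field (UF 𝓅 K) := Ideal.Quotient.field (uid 𝓅 K)

/-- the quotient map -/
noncomputable def UF.mk {Ω : Type} (𝓅 : Ultrafilter Ω) {K : Ω → Type} [∀ ω, Field (K ω)] :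
    (∀ ω, K ω) →+* UF 𝓅 K := Ideal.Quotient.mk (uid 𝓅 K)

theorem UF.mk_surjective {Ω : Type} (𝓅 : Ultrafilter Ω) {K : Ω → Type} [∀ ω, Field (K ω)] :
    Function.Surjective (UF.mk 𝓅 : (∀ ω, K ω) →+* UF 𝓅 K) := Ideal.Quotient.mk_surjective

theorem UF.mk_eq_zero {Ω : Type} {𝓅 : Ultrafilter Ω} {K : Ω → Type} [∀ ω, Field (K ω)]
    {f : ∀ ω, K ω} : UF.mk 𝓅 f = 0 ↔ ∀ᶠ ω in (𝓅 : Filter Ω), f ω = 0 :=
  Ideal.Quotient.eq_zero_iff_mem

theorem UF.mk_eq_mk {Ω : Type} {𝓅 : Ultrafilter Ω} {K : Ω → Type} [∀ ω, Field (K ω)]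
    {f g : ∀ ω, K ω} : UF.mk 𝓅 f = UF.mk 𝓅 g ↔ ∀ᶠ ω in (𝓅 : Filter Ω), f ω = g ω := by
  rw [← sub_eq_zero, ← map_sub, UF.mk_eq_zero]
  simp only [Pi.sub_apply, sub_eq_zero]

/-- the embedding of the constants (a family of copies of one field) -/
noncomputable def UF.const {Ω : Type} (𝓅 : Ultrafilter Ω) (K : Type) [Field K] :
    K →+* UF 𝓅 (fun _ : Ω => K) := (UF.mk 𝓅).comp (Pi.constRingHom Ω K)

noncomputable instance {Ω : Type} (𝓅 : Ultrafilter Ω) (K : Type) [Field K] :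
    Algebra K (UF 𝓅 (fun _ : Ω => K)) := (UF.const 𝓅 K).toAlgebra

theorem UF.algebraMap_apply {Ω : Type} (𝓅 : Ultrafilter Ω) (K : Type) [Field K] (c : K) :
    algebraMap K (UF 𝓅 (fun _ : Ω => K)) c = UF.mk 𝓅 (fun _ => c) := rfl

/-! ## The equation -/

/-- the tensor `T` satisfies a monic equation of degree `N` whose coefficients are tensors of rank at most `q` -/
def Eqn {X Y Z K : Type} [Field K] (N q : ℕ) (T : X → Y → Z → K) (α : X → Fin N → Fin q → K)
    (β : Y → Fin N → Fin q → K) (γ : Z → Fin N → Fin q → K) : Prop :=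
  ∀ x y z, T x y z ^ N + ∑ i, (∑ s, α x i s * β y i s * γ z i s) * T x y z ^ (i : ℕ) = 0

/-- there is an infinite counterexample with an equation, where `α`, `β`, `γ` have finitely many values if
`fx`, `fy`, `fz` hold -/
def Ex (l : ℕ) (fx fy fz : Prop) : Prop :=
  ∃ (K : Type) (_ : Field K) (_ : IsAlgClosed K) (X Y Z : Type) (T : X → Y → Z → K) (N q : ℕ)
    (α : X → Fin N → Fin q → K) (β : Y → Fin N → Fin q → K) (γ : Z → Fin N → Fin q → K),
    (∀ r, ¬ S3 T r) ∧ ¬ HasFull T l ∧ Eqn N q T α β γ ∧ (fx → (Set.range α).Finite) ∧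
    (fy → (Set.range β).Finite) ∧ (fz → (Set.range γ).Finite)

/-- the values `T(·, v, w)`, for `v`, `w` in the kernels of finitely many functionals, lie in a space of finite dimension
of germs of functions on `X` -/
def FS1 {X Y Z K : Type} [Field K] (T : X → Y → Z → K) (𝓊 : Ultrafilter X) : Prop :=
  ∃ (p : ℕ) (β : Fin p → Y → K) (γ : Fin p → Z → K) (d : ℕ) (L : Fin d → X → K),
    ∀ (v : Y →₀ K) (w : Z →₀ K), (∀ i, (v.sum fun y c => c * β i y) = 0) →
    (∀ i, (w.sum fun z c => c * γ i z) = 0) → ∃ c : Fin d → K, ∀ᶠ x in (𝓊 : Filter X),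
    (v.sum fun y a => w.sum fun z b => a * b * T x y z) = ∑ i, c i * L i x

/-- the ultrafilters do not see subsets on which `T` is a finite sum of slices -/
def Lrg {X Y Z K : Type} [Field K] (T : X → Y → Z → K) (𝓊 : Ultrafilter X) (𝓋 : Ultrafilter Y)
    (𝓌 : Ultrafilter Z) : Prop :=
  ∀ X' ∈ 𝓊, ∀ Y' ∈ 𝓋, ∀ Z' ∈ 𝓌, ∀ r,
    ¬ S3 (fun (x : X') (y : Y') (z : Z') => T (x : X) (y : Y) (z : Z)) r

/-! ## Blocks -/

/-- a block: three linear combinations of `m` rows -/
structure Blk (m : ℕ) (X Y Z K : Type) where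
  x : Fin m → X
  y : Fin m → Y
  z : Fin m → Z
  μ : Fin m → K
  ν : Fin m → K
  ω : Fin m → K

/-- the value of `T` at the linear combinations of three blocks -/
def Blk.val {m : ℕ} {X Y Z K : Type} [Field K] (T : X → Y → Z → K) (b b' b'' : Blk m X Y Z K) : K :=
  ∑ e, ∑ f, ∑ g, b.μ e * b'.ν f * b''.ω g * T (b.x e) (b'.y f) (b''.z g)

/-- the linear combinations are killed by the functions `PX`, `PY`, `PZ` -/
def Blk.Circ {m r : ℕ} {X Y Z K : Type} [Field K] (PX : Fin r → X → K) (PY : Fin r → Y → K)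
    (PZ : Fin r → Z → K) (b : Blk m X Y Z K) : Prop :=
  (∀ i, ∑ e, b.μ e * PX i (b.x e) = 0) ∧ (∀ i, ∑ e, b.ν e * PY i (b.y e) = 0) ∧
    (∀ i, ∑ e, b.ω e * PZ i (b.z e) = 0)

/-- index set of the block data: `inl (0, e, i, s)` for `α`, `inl (1, e, i, s)` for `β`, `inl (2, e, i, s)` for `γ`,
`inr (inl (0, e))` for `μ`, `inr (inl (1, e))` for `ν`, `inr (inl (2, e))` for `ω`, `inr (inr ())` for the inverse
of the diagonal value -/
abbrev DI (m N q : ℕ) : Type := (Fin 3 × Fin m × Fin N × Fin q) ⊕ ((Fin 3 × Fin m) ⊕ Unit)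

/-- the data of a block -/
def Blk.dat {m : ℕ} {X Y Z K : Type} [Field K] {N q : ℕ} (T : X → Y → Z → K)
    (α : X → Fin N → Fin q → K) (β : Y → Fin N → Fin q → K) (γ : Z → Fin N → Fin q → K)
    (b : Blk m X Y Z K) : DI m N q → K
  | Sum.inl (0, e, i, s) => α (b.x e) i s
  | Sum.inl (1, e, i, s) => β (b.y e) i s
  | Sum.inl (2, e, i, s) => γ (b.z e) i s
  | Sum.inr (Sum.inl (0, e)) => b.μ e
  | Sum.inr (Sum.inl (1, e)) => b.ν e
  | Sum.inr (Sum.inl (2, e)) => b.ω e
  | Sum.inr (Sum.inr ()) => (Blk.val T b b b)⁻¹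

/-- the contraction of `t` with the coefficients of the data -/
def Wt {n m N q : ℕ} {K : Type} [Field K] (t : Fin n × Fin m → Fin n × Fin m → Fin n × Fin m → K)
    (D : Fin n → DI m N q → K) (i j k : Fin n) : K :=
  ∑ e, ∑ f, ∑ g, D i (Sum.inr (Sum.inl (0, e))) * D j (Sum.inr (Sum.inl (1, f))) *
    D k (Sum.inr (Sum.inl (2, g))) * t (i, e) (j, f) (k, g)

/-- one of three indices is larger than the two others -/
def SMax {n : ℕ} (i j k : Fin n) : Prop := (j < i ∧ k < i) ∨ (i < j ∧ k < j) ∨ (i < k ∧ j < k)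

/-- the algebraic properties of `n` blocks with data `D` and values `t` -/
structure Good {n m N q : ℕ} (l : ℕ) {K : Type} [Field K]
    (t : Fin n × Fin m → Fin n × Fin m → Fin n × Fin m → K) (D : Fin n → DI m N q → K) : Prop where
  eqn : ∀ x y z : Fin n × Fin m, t x y z ^ N +
    ∑ i, (∑ s, D x.1 (Sum.inl (0, x.2, i, s)) * D y.1 (Sum.inl (1, y.2, i, s)) *
      D z.1 (Sum.inl (2, z.2, i, s))) * t x y z ^ (i : ℕ) = 0
  off : ∀ i j k, SMax i j k → Wt t D i j k = 0
  diag : ∀ i, Wt t D i i i * D i (Sum.inr (Sum.inr ())) = 1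
  nf : ¬ HasFull t l

end Pool.Agent.helper26.IM
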