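import Pool.Agent.helper26.IM.Basic
import Pool.Agent.helper35.MR.SpecA

/-!
# Project im: specification (helper26)

Final theorem: Q1 of MP_b48e27_co for `d = 3`, every family `R`, every field: `G` depends only on `l` and `R`.

Every `XX_stmt : Prop` is a module `im:XX`. File `Pool/Agent/<you>/IM/XX.lean`,
`import Pool.Agent.helper26.IM.SpecA`, namespace `Pool.Agent.helper26.IM`,
`open Finset Pool.Agent.RRank Pool.Agent.helper35.MR`, `theorem XX (h : YY_stmt) ... : XX_stmt`; any other
statement of the file (and `CHB_stmt`, `TGT_stmt`, `FS_stmt`, ... of project mr:) may be a hypothesis (not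
circularly), auxiliary lemmas are prefixed `XX_`. Basic lemmas on `S3`, `Full3`, `HasFull` are in `Basic.lean`.

Idea of the proof. Induction on `l`: assume `Star l` and not `Star (l + 1)`. Ultraproduct: there is `T` over an
algebraically closed field which is no finite sum of slices and has no full minor with sides `l + 1`. Peel lemmas
(BPO, TPO): `T` lies in every valuation ring of every ultraproduct which contains the functions of one
variable. So (INT) `T` satisfies a monic equation whose coefficients are tensors of finite tensor rank. Then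
freeze the functions of one variable which occur in the equation: if `T(·, v, w)` spans an infinite dimensional
space (not FS1) then specialise `X` to points of a ring of functions over few values of `α` (STX); if FS1
holds in all directions, choose generic blocks and specialise the blocks one after the other to one and the
same block (CB). In the end `T` has boundedly many values, which contradicts the theorem of project mr:.
-/

set_option autoImplicit false

open Finset

namespace Pool.Agent.helper26.IM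

open Pool.Agent.RRank Pool.Agent.helper35.MR

/-! ## 1. Full tensors -/

/-- NFC: the certificate `NF` is equivalent to not full. `NF → ¬ Full3`: the rows of `A` are linearly independent
(`A a (s b) = δ_ab`), take `U = span (range A)`, `finrank U = p`, and `ev3` is trilinear. `¬ Full3 → NF`: every subspace
`U` of `ι → K` of dimension `p` has a basis in echelon form: a basis matrix `p × ι` has `p` independent columns
`s`, multiply by the inverse of this submatrix. -/
def NFC_stmt : Prop := ∀ (K : Type) [Field K] (ι : Type) [Fintype ι] (M : ι → ι → ι → K),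
  NF M ↔ ¬ Full3 M

/-- NFM: certificates are mapped by field homomorphisms. -/
def NFM_stmt : Prop := ∀ (K L : Type) [Field K] [Field L] (φ : K →+* L) (ι : Type) [Fintype ι]
  (M : ι → ι → ι → K), NF M → NF (fun i j k => φ (M i j k))

/-- NSZ: Nullstellensatz: a nontrivial algebra of finite type over an algebraically closed field has a point (the
quotient by a maximal ideal is finite over `K`: `finite_of_finite_type_of_isJacobsonRing`, so it is `K`). -/
def NSZ_stmt : Prop := ∀ (K : Type) [Field K] [IsAlgClosed K] (R : Type) [CommRing R] [Algebra K R]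
  [Algebra.FiniteType K R] [Nontrivial R], Nonempty (R →ₐ[K] K)

/-- NFG: over an algebraically closed field fullness is geometric. The entries of `A`, `B`, `C` of a certificate over
`L` generate a `K`-algebra of finite type, apply a `K`-point of it to the certificate. Uses NSZ. -/
def NFG_stmt : Prop := ∀ (K L : Type) [Field K] [IsAlgClosed K] [Field L] (φ : K →+* L) (ι : Type)
  [Fintype ι] (M : ι → ι → ι → K), NF (fun i j k => φ (M i j k)) → NF M

/-- NFV: specialisation at a valuation ring. Let `(A, s)` be the first part of a certificate over `L`. Choose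
`s' : Fin p → ι` such that the valuation of `det (A.submatrix id s')` is maximal (nonzero, as it is 1 for `s`), and replace
`A` by `(A.submatrix id s')⁻¹ A`: by Cramer's rule the entries are quotients
`det (A.submatrix id (update s' a i)) / det (A.submatrix id s')`, so they are in `O`, and the columns `s'` form the identity.
(`U` does not change: rows are linear combinations of rows.) Similarly `B`, `C`. Apply `ρ`. -/
def NFV_stmt : Prop := ∀ (L : Type) [Field L] (O : ValuationSubring L) (κ : Type) [Field κ]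
  (ρ : O →+* κ) (ι : Type) [Fintype ι] (M : ι → ι → ι → O),
  NF (fun i j k => (M i j k : L)) → NF (fun i j k => ρ (M i j k))

/-- CEX: two extensions of a field have a common extension (`K ⊗[k] κ` modulo a maximal ideal). -/
def CEX_stmt : Prop := ∀ (k K κ : Type) [Field k] [Field K] [Field κ] (f : k →+* K) (g : k →+* κ),
  ∃ (Ω : Type) (_ : Field Ω) (f' : K →+* Ω) (g' : κ →+* Ω), ∀ x, f' (f x) = g' (g x)

/-- NFS: specialisation at a point of a subring. Let `P = ker h`; there is a valuation ring `O` of `L` which dominates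
`A_P` (`LocalSubring.ofPrime`, `LocalSubring.exists_le_valuationSubring`), so its residue field `κ` contains the
fraction field `k` of `A / P`, as `K` does. By CEX there is `Ω` over `K` and `κ`, compatible on `A`. A certificate over `L`
gives one over `κ` (NFV with the residue map), over `Ω` (NFM), and for `h ∘ M` over `K` (NFG). Uses NFV, CEX, NFM, NFG. -/
def NFS_stmt : Prop := ∀ (L K : Type) [Field L] [Field K] [IsAlgClosed K] (A : Subring L)
  (h : A →+* K) (ι : Type) [Fintype ι] (M : ι → ι → ι → A),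
  NF (fun i j k => (M i j k : L)) → NF (fun i j k => h (M i j k))

/-- LOS: Łoś for certificates. The numbers `p, q, r` and the functions `s, t, u` are constant on a set of the ultrafilter
(only `p, q, r ≤ card ι` are possible, as the maps `s, t, u` are injective, so there are finitely many possibilities);
take the germs of the matrices. -/
def LOS_stmt : Prop := ∀ (Ω : Type) (𝓅 : Ultrafilter Ω) (K : Ω → Type) [∀ ω, Field (K ω)] (ι : Type)
  [Fintype ι] (M : ∀ ω, ι → ι → ι → K ω), (∀ᶠ ω in (𝓅 : Filter Ω), NF (M ω)) →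
  NF (fun i j k => UF.mk 𝓅 (fun ω => M ω i j k))

/-- FLX: extension of a full tensor by a corner. Let `M` vanish on `U × V × W`, codimensions `a + b + c ≤ card ι`
(the sides are `card ι + 1`). Write `X' = {x ∈ X : x_none = 0}` (a subspace of `K^ι`, codimension there at most that of `X`, and
one less if `X ⊆ {x_none = 0}`) and `pr X` for the projection to `K^ι` (codimension at most that of `X`, one less if
`e_none ∉ X`). If `v_none = 0` or `w_none = 0` then `M(u,v,w) = M(pr u,v,w)`. If `V ⊆ {v_none = 0}`: `M` vanishes on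
`pr U × V' × W'`, total codimension at most `card ι - 1`: contradiction. Similarly `W`. If `e_none ∉ U`: the same triple. Otherwise
`M(e_none, v, w) = M(none,none,none) v_none w_none ≠ 0` for suitable `v`, `w`. -/
def FLX_stmt : Prop := ∀ (K : Type) [Field K] (ι : Type) [Fintype ι]
  (M : Option ι → Option ι → Option ι → K), M none none none ≠ 0 →
  (∀ j k, (j, k) ≠ (none, none) → M none j k = 0) →
  Full3 (fun i j k => M (some i) (some j) (some k)) → Full3 M

/-- LWF: tensors which vanish where one index is larger than the two others, with nonzero diagonal, are full. Induction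
on `n` (last index `n`): let `W` vanish on `U × V × V'` with total codimension less than `n + 1`. If `e_n` lies in all three
then `W(e_n, e_n, e_n) = W n n n ≠ 0`. Otherwise say `e_n ∉ U`; for `v`, `v'` with last coordinate 0 `W(u, v, v')` depends
only on the projection of `u` to `K^n`; the projection of `U` has codimension one less, `{v ∈ V : v_n = 0}` and
`{v' ∈ V' : v'_n = 0}` have at most the same codimension in `K^n`: contradiction to the induction hypothesis. -/
def LWF_stmt : Prop := ∀ (K : Type) [Field K] (n : ℕ) (W : Fin n → Fin n → Fin n → K),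
  (∀ i j k, SMax i j k → W i j k = 0) → (∀ i, W i i i ≠ 0) → Full3 W

/-- FNS: full tensors are not sums of few slices (compare `FS_stmt` of mr:). -/
def FNS_stmt : Prop := ∀ (K : Type) [Field K] (ι : Type) [Fintype ι] (M : ι → ι → ι → K),
  Full3 M → ∀ r < Fintype.card ι, ¬ S3 M r

/-- NFR: tensors which are not full are sums of less than `card ι` slices. If `M` vanishes on `U × V × W` with
codimensions `a + b + c < card ι`: write the identity of `K^ι` as `id = pr_U + ∑ (a rank one maps)` (a projection to `U`),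
similarly `V`, `W`; `M(x,y,z) = M(x - pr x, y, z) + M(pr x, y - pr y, z) + M(pr x, pr y, z - pr z)` for `x = e_i`, ... -/
def NFR_stmt : Prop := ∀ (K : Type) [Field K] (ι : Type) [Fintype ι] (M : ι → ι → ι → K),
  ¬ Full3 M → S3 M (Fintype.card ι - 1)

/-! ## 2. Slice rank: conversion, compactness, few values -/

/-- three coordinates -/
def mk3 {Q : Fin 3 → Type} (x : Q 0) (y : Q 1) (z : Q 2) : (α : Fin 3) → Q α
  | 0 => x
  | 1 => y
  | 2 => z

/-- CV3: the two notions of slice decomposition for order 3. (A member of `slices 3` is `{{α}, {α}ᶜ}`; several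
slices of direction `α` are sorted into the three groups of `S3`. If some `Q α` is empty both sides are true.) -/
def CV3_stmt : Prop := ∀ (K : Type) [Field K] (Q : Fin 3 → Type) (T : ((α : Fin 3) → Q α) → K) (r : ℕ),
  (∃ r' ≤ r, SumOf (slices 3) T r') ↔ S3 (fun (x : Q 0) (y : Q 1) (z : Q 2) => T (mk3 x y z)) r

/-- CPX: compactness, also after an extension of the field. From the proof of the theorem `main` in
`Pool/Agent/helper26/SmallMinorsAllFields.lean` (or `Pool/Agent/Results/MP_b48e27_co/SmallMinorsAllFields.lean`), for `d = 3`,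
`S = univ`, `k α = k` large: `exists_csum_ne_zero` for `T` over `K`; `csum` commutes with `φ`; `csum_eq_zero` for `φ ∘ T` over
`L`. (`slices_three : slices 3 = twoParts 3`.) Uses CV3. -/
def CPX_stmt : Prop := ∀ l : ℕ, ∃ G N : ℕ, ∀ (K L : Type) [Field K] [Field L] (φ : K →+* L)
  (X Y Z : Type) (T : X → Y → Z → K), ¬ S3 T G →
  ∃ (x : Fin N → X) (y : Fin N → Y) (z : Fin N → Z), ¬ S3 (fun i j k => φ (T (x i) (y j) (z k))) l

/-- FVT: the theorem for tensors with at most `m` values (SL3 of project mr:, landed), in terms of `S3` and `HasFull`: a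
minor with sides at most `l` and slice rank at least `l` has sides `l` and is full (NFR). Uses `SL3_stmt` (mr:), CV3, NFR. -/
def FVT_stmt : Prop := ∀ m l : ℕ, ∃ G : ℕ, ∀ (K : Type) [Field K] (X Y Z : Type) (T : X → Y → Z → K),
  (Set.range (fun p : X × Y × Z => T p.1 p.2.1 p.2.2)).Finite →
  (Set.range (fun p : X × Y × Z => T p.1 p.2.1 p.2.2)).ncard ≤ m → ¬ S3 T G → HasFull T l

/-- LS3: Łoś for slices on finite sets: lift the (finitely many) entries of the decomposition. (`p, q, s` are given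
numbers.) -/
def LS3_stmt : Prop := ∀ (Ω : Type) (𝓅 : Ultrafilter Ω) (K : Ω → Type) [∀ ω, Field (K ω)]
  (X Y Z : Type) [Finite X] [Finite Y] [Finite Z] (T : ∀ ω, X → Y → Z → K ω) (r : ℕ),
  S3 (fun x y z => UF.mk 𝓅 (fun ω => T ω x y z)) r → ∀ᶠ ω in (𝓅 : Filter Ω), S3 (T ω) r

/-- UAC: ultraproducts of algebraically closed fields are algebraically closed: lift a monic polynomial to a monic
polynomial over `∀ ω, K ω` (`Polynomial.lifts_and_natDegree_eq_and_monic`), choose a root of each component. -/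
def UAC_stmt : Prop := ∀ (Ω : Type) (𝓅 : Ultrafilter Ω) (K : Ω → Type) [∀ ω, Field (K ω)]
  [∀ ω, IsAlgClosed (K ω)], IsAlgClosed (UF 𝓅 K)

/-- UPG: ultraproduct of counterexamples of growing rank. `𝓅 = hyperfilter ℕ`. If the ultraproduct were `S3 _ r`: by
CPX (for `l = r`, `φ = id`) there are `N` and `G` and for all `n ≥ G` rows `x n : Fin N → X n`, ... with a minor which is not
`S3 _ r`; the `N × N × N` tensor of germs is `S3 _ r` (`S3.comp`), by LS3 almost all these minors are: contradiction.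
(For `n < G` choose any rows; `X n` is not empty as `¬ S3 (T n) n`.) Full minors: LOS and NFC. Uses CPX, LS3, LOS, NFC. -/
def UPG_stmt : Prop := ∀ (l : ℕ) (K : ℕ → Type) [∀ n, Field (K n)] (X Y Z : ℕ → Type)
  (T : ∀ n, X n → Y n → Z n → K n), (∀ n, ¬ S3 (T n) n) → (∀ n, ¬ HasFull (T n) l) →
  (∀ r, ¬ S3 (fun (x : ∀ n, X n) (y : ∀ n, Y n) (z : ∀ n, Z n) =>
    UF.mk (Filter.hyperfilter ℕ) (fun n => T n (x n) (y n) (z n))) r) ∧
  ¬ HasFull (fun (x : ∀ n, X n) (y : ∀ n, Y n) (z : ∀ n, Z n) =>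
    UF.mk (Filter.hyperfilter ℕ) (fun n => T n (x n) (y n) (z n))) l

/-- UP0: if `Star l` is false there is an infinite counterexample. Uses UPG, UAC. -/
def UP0_stmt : Prop := ∀ l : ℕ, ¬ Star l → ∃ (K : Type) (_ : Field K) (_ : IsAlgClosed K) (X Y Z : Type)
  (T : X → Y → Z → K), (∀ r, ¬ S3 T r) ∧ ¬ HasFull T l

/-- UPL: the same with an equation of fixed size and bounded numbers of values. The functions `α*(x) i s` is the
germ of `n ↦ α n (x n) i s`; if every `α n` has at most `m` values, enumerate them by `Fin m`; `α*` has at most `m` values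
(as `x ↦ (n ↦ index of α n (x n))` has at most `m` classes modulo the ultrafilter). Uses UPG, UAC. -/
def UPL_stmt : Prop := ∀ (l N q m : ℕ) (fx fy fz : Prop),
  (∀ n : ℕ, ∃ (K : Type) (_ : Field K) (_ : IsAlgClosed K) (X Y Z : Type) (T : X → Y → Z → K)
    (α : X → Fin N → Fin q → K) (β : Y → Fin N → Fin q → K) (γ : Z → Fin N → Fin q → K),
    ¬ S3 T n ∧ ¬ HasFull T l ∧ Eqn N q T α β γ ∧
    (fx → (Set.range α).Finite ∧ (Set.range α).ncard ≤ m) ∧
    (fy → (Set.range β).Finite ∧ (Set.range β).ncard ≤ m) ∧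
    (fz → (Set.range γ).Finite ∧ (Set.range γ).ncard ≤ m)) → Ex l fx fy fz

/-! ## 3. Peel lemmas and the integral equation -/

/-- BPO: peel lemma for two variables. Write `τ z = UF.mk (T (ξ ω) (η ω) z)`. Suppose `τ z₁ ∉ O`. Let `κ` be the algebraic closure
of the residue field of `O`, `ρ : O →+* κ`, `φ : K →+* κ` (constants are in `O`). Let `G` be the bound of `Star l`; by CPX for `G + 1`
and `φ` there are finitely many rows `x_i`, `y_j`, `z_k` with `¬ S3 (φ T(x_i,y_j,z_k)) (G + 1)`. Among `z₁` and the `z_k` let `z*` have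
the largest valuation of `τ z`; so `τ z* ∉ O`, `(τ z*)⁻¹` in the maximal ideal, `τ z_k / τ z* ∈ O`. Let
`Tγ(i,j,k) = φ T(x_i,y_j,z_k) - ρ(τ z_k / τ z*) φ T(x_i,y_j,z*)`: not `S3 _ G`, so by `Star l` over `κ` it has a full `l`-minor `x_a, y_b, z_c`
(`a, b, c : Fin l`). Consider the `(l+1)`-minor `M` over `UF`, indexed by `Option (Fin l)`: rows `none ↦ ξ`, `some a ↦ x_a`;
`none ↦ η`, `some b ↦ y_b`; `none ↦ z*`, `some c ↦ z_c`. In the bases `e_none / τ z*`, `e_a`; `e_none`, `e_b`; `e_none`,
`e_c - (τ z_c / τ z*) e_none` it has all entries in `O`, and after `ρ`: `(none,none,none) ↦ 1`, `(none,j,k) ↦ 0` otherwise, and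
`(a,b,c) ↦ Tγ(x_a,y_b,z_c)`. (`T(ξ,y_b,z) ∈ O`, `T(x_a,η,z) ∈ O` as functions of one variable.) By FLX it is full over `κ`, by
NFV and CHB `M` is full over `UF`, by LOS `T` has a full `(l+1)`-minor: contradiction. Uses CPX, FLX, NFV, LOS, NFC, `CHB_stmt`. -/
def BPO_stmt : Prop := ∀ (l : ℕ), Star l → ∀ (K : Type) [Field K] [IsAlgClosed K] (X Y Z : Type)
  (T : X → Y → Z → K), (∀ r, ¬ S3 T r) → ¬ HasFull T (l + 1) →
  ∀ (Ω : Type) (𝓅 : Ultrafilter Ω) (O : ValuationSubring (UF 𝓅 fun _ : Ω => K)) (ξ : Ω → X) (η : Ω → Y),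
  (∀ f : X → K, UF.mk 𝓅 (fun ω => f (ξ ω)) ∈ O) → (∀ f : Y → K, UF.mk 𝓅 (fun ω => f (η ω)) ∈ O) →
  ∀ z : Z, UF.mk 𝓅 (fun ω => T (ξ ω) (η ω) z) ∈ O

/-- TPO: peel lemma for three variables. Let `τ = UF.mk (T (ξ ω) (η ω) (ζ ω)) ∉ O`. `T` has a full `l`-minor `x_a`, `y_b`, `z_c`
(`Star l`). Minor `M` on `Option (Fin l)` with `none ↦ ξ`, `η`, `ζ`. All entries except `(none,none,none)` are in `O`: BPO for `T` and
its permutations (`S3.swap12`, ...). Scale `e_none` of the first direction by `1/τ`; after `ρ` (`κ` the residue field): corner 1,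
`(none,j,k) ↦ 0`, block `φ T(x_a,y_b,z_c)`, which is full over `κ` by NFG. FLX, NFV, CHB, LOS: contradiction as in BPO.
Uses BPO, NFG, FLX, NFV, LOS, NFC, `CHB_stmt`. -/
def TPO_stmt : Prop := ∀ (l : ℕ), Star l → ∀ (K : Type) [Field K] [IsAlgClosed K] (X Y Z : Type)
  (T : X → Y → Z → K), (∀ r, ¬ S3 T r) → ¬ HasFull T (l + 1) →
  ∀ (Ω : Type) (𝓅 : Ultrafilter Ω) (O : ValuationSubring (UF 𝓅 fun _ : Ω => K)) (ξ : Ω → X) (η : Ω → Y)
  (ζ : Ω → Z), (∀ f : X → K, UF.mk 𝓅 (fun ω => f (ξ ω)) ∈ O) →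
  (∀ f : Y → K, UF.mk 𝓅 (fun ω => f (η ω)) ∈ O) → (∀ f : Z → K, UF.mk 𝓅 (fun ω => f (ζ ω)) ∈ O) →
  UF.mk 𝓅 (fun ω => T (ξ ω) (η ω) (ζ ω)) ∈ O

/-- an equation as in `Eqn` on the set `E` -/
def EqOn {X Y Z K : Type} [Field K] (T : X → Y → Z → K) (E : Set (X × Y × Z)) : Prop :=
  ∃ (N q : ℕ) (α : X → Fin N → Fin q → K) (β : Y → Fin N → Fin q → K) (γ : Z → Fin N → Fin q → K),
    ∀ x y z, (x, y, z) ∈ E →
      T x y z ^ N + ∑ i, (∑ s, α x i s * β y i s * γ z i s) * T x y z ^ (i : ℕ) = 0

/-- INA: the equation near an ultrafilter on `X × Y × Z`. Take `Ω = X × Y × Z` and the projections. Let `s` be the set of the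
germs of functions of one variable. By TPO the germ `τ` of `T` is in all valuation rings which contain `s`; by
`iInf_valuationSubring_superset` it is integral over the subring generated by `s`. The elements of this subring are germs of
finite sums of products `a(x) b(y) c(z)` (closure induction); lift the monic equation, pad all coefficients to the same
number `q` of summands. Uses TPO. -/
def INA_stmt : Prop := ∀ (l : ℕ), Star l → ∀ (K : Type) [Field K] [IsAlgClosed K] (X Y Z : Type)
  (T : X → Y → Z → K), (∀ r, ¬ S3 T r) → ¬ HasFull T (l + 1) →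
  ∀ 𝓅 : Ultrafilter (X × Y × Z), ∃ E ∈ 𝓅, EqOn T E

/-- EQM: equations on `E` and `E'` give one on `E ∪ E'`: the product of the two monic polynomials; finite sums of products
`a(x) b(y) c(z)` form a ring. -/
def EQM_stmt : Prop := ∀ (K : Type) [Field K] (X Y Z : Type) (T : X → Y → Z → K)
  (E E' : Set (X × Y × Z)), EqOn T E → EqOn T E' → EqOn T (E ∪ E')

/-- INT: the global equation. The sets `E` with `EqOn T E` form an ideal of sets (EQM, subsets, the empty set: `N = 0`);
if `univ` does not belong to it there is an ultrafilter which contains the complements: contradiction to INA. -/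
def INT_stmt : Prop := ∀ (l : ℕ), Star l → ∀ (K : Type) [Field K] [IsAlgClosed K] (X Y Z : Type)
  (T : X → Y → Z → K), (∀ r, ¬ S3 T r) → ¬ HasFull T (l + 1) →
  ∃ (N q : ℕ) (α : X → Fin N → Fin q → K) (β : Y → Fin N → Fin q → K) (γ : Z → Fin N → Fin q → K),
    Eqn N q T α β γ

/-! ## 4. Case B: finite dimensional in all directions -/

/-- UFS: choice of the ultrafilters. The sets `X'` with `T` on `X' × Y × Z` a finite sum of slices form an ideal which does not
contain `univ`: an ultrafilter `𝓊` avoids it. Then the `Y'` such that for some `X' ∈ 𝓊` `T` on `X' × Y' × Z` is a finite sum of slices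
form an ideal not containing `univ`: `𝓋`; and then `𝓌`. (`S3` on `X₁` and `X₂` implies `S3` on `X₁ ∪ X₂`: multiply
by indicator functions.) -/
def UFS_stmt : Prop := ∀ (K : Type) [Field K] (X Y Z : Type) (T : X → Y → Z → K), (∀ r, ¬ S3 T r) →
  ∃ (𝓊 : Ultrafilter X) (𝓋 : Ultrafilter Y) (𝓌 : Ultrafilter Z), Lrg T 𝓊 𝓋 𝓌

/-- FZN: if `α` has finitely many values then FS1 holds. `α` is constant on a set of `𝓊`, so the germ of `x ↦ T x y z` is the root
of a monic polynomial over the constants `K`, algebraically closed, so it is a constant `c y z`. FS1 with `p = 0`, `d = 1`,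
`L = 1`. -/
def FZN_stmt : Prop := ∀ (K : Type) [Field K] [IsAlgClosed K] (X Y Z : Type) (T : X → Y → Z → K)
  (N q : ℕ) (α : X → Fin N → Fin q → K) (β : Y → Fin N → Fin q → K) (γ : Z → Fin N → Fin q → K),
  Eqn N q T α β γ → (Set.range α).Finite → ∀ 𝓊 : Ultrafilter X, FS1 T 𝓊

/-- EXB: existence of blocks. Otherwise `T` vanishes on all circuits with support in `X'`, `Y'`, `Z'`. Let `B ⊆ X'` be finite, at most `r`
points, such that the vectors `(PX i b)_i`, `b ∈ B`, span those of all points of `X'`; for `x ∈ X'` choose `c_b(x)` such that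
`x - x̃`, `x̃ = ∑_b c_b(x) b`, is a circuit. Similarly `y`, `z`. `T(x - x̃, y - ỹ, z - z̃) = 0`, so on `X' × Y' × Z'`
`T(x,y,z) = T(x̃,y,z) + T(x - x̃,ỹ,z) + T(x - x̃,y - ỹ,z̃)`: at most `3 r` slices: contradiction. -/
def EXB_stmt : Prop := ∀ (K : Type) [Field K] (X Y Z : Type) (T : X → Y → Z → K) (r : ℕ)
  (PX : Fin r → X → K) (PY : Fin r → Y → K) (PZ : Fin r → Z → K) (𝓊 : Ultrafilter X)
  (𝓋 : Ultrafilter Y) (𝓌 : Ultrafilter Z), Lrg T 𝓊 𝓋 𝓌 → ∀ X' ∈ 𝓊, ∀ Y' ∈ 𝓋, ∀ Z' ∈ 𝓌,
  ∃ b : Blk (r + 1) X Y Z K, Blk.Circ PX PY PZ b ∧ (∀ e, b.x e ∈ X') ∧ (∀ e, b.y e ∈ Y') ∧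
    (∀ e, b.z e ∈ Z') ∧ Blk.val T b b b ≠ 0

/-- UBL: the ultrafilter on blocks. The sets of EXB form a filter basis. Uses EXB. -/
def UBL_stmt : Prop := ∀ (K : Type) [Field K] (X Y Z : Type) (T : X → Y → Z → K) (r : ℕ)
  (PX : Fin r → X → K) (PY : Fin r → Y → K) (PZ : Fin r → Z → K) (𝓊 : Ultrafilter X)
  (𝓋 : Ultrafilter Y) (𝓌 : Ultrafilter Z), Lrg T 𝓊 𝓋 𝓌 →
  ∃ 𝒰 : Ultrafilter (Blk (r + 1) X Y Z K),
    (∀ᶠ b in (𝒰 : Filter (Blk (r + 1) X Y Z K)), Blk.Circ PX PY PZ b ∧ Blk.val T b b b ≠ 0) ∧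
    (∀ X' ∈ 𝓊, ∀ᶠ b in (𝒰 : Filter (Blk (r + 1) X Y Z K)), ∀ e, b.x e ∈ X') ∧
    (∀ Y' ∈ 𝓋, ∀ᶠ b in (𝒰 : Filter (Blk (r + 1) X Y Z K)), ∀ e, b.y e ∈ Y') ∧
    (∀ Z' ∈ 𝓌, ∀ᶠ b in (𝒰 : Filter (Blk (r + 1) X Y Z K)), ∀ e, b.z e ∈ Z')

/-- ZER: vanishing. For circuits `v`, `w` of the blocks `b'`, `b''` (as finitely supported functions) FS1 gives `c` and a set
`X' ∈ 𝓊` with `T(x,v,w) = ∑ c_i L_i(x)` on `X'`; a circuit `u` with support in `X'` kills the `L_i`. -/
def ZER_stmt : Prop := ∀ (K : Type) [Field K] (X Y Z : Type) (T : X → Y → Z → K) (𝓊 : Ultrafilter X)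
  (p : ℕ) (β : Fin p → Y → K) (γ : Fin p → Z → K) (d : ℕ) (L : Fin d → X → K),
  (∀ (v : Y →₀ K) (w : Z →₀ K), (∀ i, (v.sum fun y c => c * β i y) = 0) →
    (∀ i, (w.sum fun z c => c * γ i z) = 0) → ∃ c : Fin d → K, ∀ᶠ x in (𝓊 : Filter X),
    (v.sum fun y a => w.sum fun z b => a * b * T x y z) = ∑ i, c i * L i x) →
  ∀ (r m : ℕ) (PX : Fin r → X → K) (PY : Fin r → Y → K) (PZ : Fin r → Z → K),
  (∀ i, ∃ j, PX j = L i) → (∀ i, ∃ j, PY j = β i) → (∀ i, ∃ j, PZ j = γ i) →
  ∀ b' b'' : Blk m X Y Z K, Blk.Circ PX PY PZ b' → Blk.Circ PX PY PZ b'' →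
  ∃ X' ∈ 𝓊, ∀ b : Blk m X Y Z K, Blk.Circ PX PY PZ b → (∀ e, b.x e ∈ X') → Blk.val T b b' b'' = 0

/-- GBL: generic blocks. Collect the functions of the three FS1 properties into common families `PX`, `PY`, `PZ` (pad with
zeros), then UBL and ZER (for `T` and its permutations; permute the blocks accordingly). Uses UBL, ZER. -/
def GBL_stmt : Prop := ∀ (K : Type) [Field K] (X Y Z : Type) (T : X → Y → Z → K) (𝓊 : Ultrafilter X)
  (𝓋 : Ultrafilter Y) (𝓌 : Ultrafilter Z), Lrg T 𝓊 𝓋 𝓌 → FS1 T 𝓊 → FS1 (fun y x z => T x y z) 𝓋 →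
  FS1 (fun z y x => T x y z) 𝓌 →
  ∃ (r : ℕ) (PX : Fin r → X → K) (PY : Fin r → Y → K) (PZ : Fin r → Z → K)
    (𝒰 : Ultrafilter (Blk (r + 1) X Y Z K)),
    (∀ᶠ b in (𝒰 : Filter (Blk (r + 1) X Y Z K)), Blk.Circ PX PY PZ b ∧ Blk.val T b b b ≠ 0) ∧
    ∀ b' b'', Blk.Circ PX PY PZ b' → Blk.Circ PX PY PZ b'' → ∀ᶠ b in (𝒰 : Filter (Blk (r + 1) X Y Z K)),
      Blk.val T b b' b'' = 0 ∧ Blk.val T b' b b'' = 0 ∧ Blk.val T b' b'' b = 0

/-- ITR: the freezing of the blocks, combinatorial part. Show by downward induction on `k ≤ n`: for all `b` with `Gd i b` for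
all `i < k`: `P (fun j => if j < k then D (b j) else D₀)`. Step from `k + 1` to `k`: for almost all `c` the sequence `update b k c`
satisfies `Gd i` for `i ≤ k`, so `P (update d k (D c))` with `d = fun j => if j < k then D (b j) else D₀`, and `update d k D₀ = d`. -/
def ITR_stmt : Prop := ∀ (n : ℕ) (B Δ : Type) (𝒰 : Ultrafilter B) (D : B → Δ) (D₀ : Δ)
  (P : (Fin n → Δ) → Prop) (Gd : Fin n → (Fin n → B) → Prop),
  (∀ i b b', (∀ j ≤ i, b j = b' j) → Gd i b → Gd i b') →
  (∀ i b, ∀ᶠ c in (𝒰 : Filter B), Gd i (Function.update b i c)) →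
  (∀ b, (∀ i, Gd i b) → P (fun i => D (b i))) →
  (∀ d k, (∀ᶠ c in (𝒰 : Filter B), P (Function.update d k (D c))) → P (Function.update d k D₀)) →
  P (fun _ => D₀)

/-- SP0: a point of the ring of the block data. Uses NSZ. -/
def SP0_stmt : Prop := ∀ (K : Type) [Field K] [IsAlgClosed K] (B : Type) (𝒰 : Ultrafilter B) (I : Type)
  [Finite I] (D : B → I → K), Nonempty (Algebra.adjoin K
    (Set.range fun i => (UF.mk 𝒰 (fun b => D b i) : UF 𝒰 fun _ : B => K)) →ₐ[K] K)

/-- EXI: extension of a point along an integral extension (lying over: `ker φ` is maximal; the quotient is integral over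
`K`, so it is `K`). -/
def EXI_stmt : Prop := ∀ (K : Type) [Field K] [IsAlgClosed K] (L : Type) [Field L] [Algebra K L]
  (A B : Subalgebra K L) (hAB : A ≤ B), (∀ x ∈ B, IsIntegral A x) → ∀ φ : A →ₐ[K] K,
  ∃ ψ : B →ₐ[K] K, ∀ x : A, ψ (Subalgebra.inclusion hAB x) = φ x

/-- GLO: Łoś for `Good`. Uses LOS, NFC. -/
def GLO_stmt : Prop := ∀ (Ω : Type) (𝓅 : Ultrafilter Ω) (K : Type) [Field K] (n m N q l : ℕ)
  (t : Ω → Fin n × Fin m → Fin n × Fin m → Fin n × Fin m → K) (D : Ω → Fin n → DI m N q → K),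
  (∀ᶠ ω in (𝓅 : Filter Ω), Good l (t ω) (D ω)) →
  Good l (fun x y z => (UF.mk 𝓅 (fun ω => t ω x y z) : UF 𝓅 fun _ : Ω => K))
    (fun i j => (UF.mk 𝓅 (fun ω => D ω i j) : UF 𝓅 fun _ : Ω => K))

/-- GHO: specialisation of `Good` at a point. Apply `φ` to the equations; NFS and NFC for the last condition. -/
def GHO_stmt : Prop := ∀ (K : Type) [Field K] [IsAlgClosed K] (L : Type) [Field L] [Algebra K L]
  (A : Subalgebra K L) (φ : A →ₐ[K] K) (n m N q l : ℕ)
  (t : Fin n × Fin m → Fin n × Fin m → Fin n × Fin m → A) (D : Fin n → DI m N q → A),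
  Good l (fun x y z => (t x y z : L)) (fun i j => (D i j : L)) →
  Good l (fun x y z => φ (t x y z)) (fun i j => φ (D i j))

/-- STP: freezing one block. For almost all `c` choose `t c`; germs: GLO. The entries of the germ `t*` are integral over
`A = K[data]` by `Good.eqn`; let `B` be the integral closure of `A` in `UF` (as a `K`-subalgebra), extend `φ` to `B` (EXI), GHO.
Uses GLO, EXI, GHO. -/
def STP_stmt : Prop := ∀ (K : Type) [Field K] [IsAlgClosed K] (n m N q l : ℕ) (B : Type)
  (𝒰 : Ultrafilter B) (D : B → DI m N q → K)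
  (φ : Algebra.adjoin K (Set.range fun i => (UF.mk 𝒰 (fun b => D b i) : UF 𝒰 fun _ : B => K)) →ₐ[K] K)
  (D₀ : DI m N q → K), (∀ i, φ ⟨_, Algebra.subset_adjoin ⟨i, rfl⟩⟩ = D₀ i) →
  ∀ (d : Fin n → DI m N q → K) (k : Fin n),
  (∀ᶠ c in (𝒰 : Filter B), ∃ t, Good l t (Function.update d k (D c))) →
  ∃ t, Good l t (Function.update d k D₀)

/-- FIN: many frozen blocks are impossible. `n = G + 1` with `G` of FVT for `N m ^ 3` and `l`. If `N = 0` the equation is `1 = 0`. The
value `t (i,e) (j,f) (k,g)` is a root of a monic polynomial of degree `N` which depends only on `e, f, g`: at most `N m ^ 3`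
values. `Wt t D` is full (LWF), so it is not `S3 _ G` (FNS), so `t` is not (`S3.lin1` and permutations). FVT: `t` has a full
`l`-minor. Uses FVT, LWF, FNS. -/
def FIN_stmt : Prop := ∀ (l N q m : ℕ), ∃ n : ℕ, ∀ (K : Type) [Field K] (D₀ : DI m N q → K)
  (t : Fin n × Fin m → Fin n × Fin m → Fin n × Fin m → K), ¬ Good l t (fun _ => D₀)

/-- CSB: case B. GBL; `D = Blk.dat T α β γ`, SP0 gives `φ` and `D₀`; `n` of FIN; ITR with `P d = ∃ t, Good l t d` and
`Gd i b`: `Circ (b i)`, `val T (b i) (b i) (b i) ≠ 0`, and for all `j, k < i` with `Circ (b j)`, `Circ (b k)` the three values at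
`(b i, b j, b k)`, `(b j, b i, b k)`, `(b j, b k, b i)` vanish. `P (D ∘ b)`: `t x y z = T ((b x.1).x x.2) ((b y.1).y y.2) ((b z.1).z z.2)`.
STP. Uses GBL, SP0, FIN, ITR, STP. -/
def CSB_stmt : Prop := ∀ (K : Type) [Field K] [IsAlgClosed K] (X Y Z : Type) (T : X → Y → Z → K)
  (l N q : ℕ) (α : X → Fin N → Fin q → K) (β : Y → Fin N → Fin q → K) (γ : Z → Fin N → Fin q → K)
  (𝓊 : Ultrafilter X) (𝓋 : Ultrafilter Y) (𝓌 : Ultrafilter Z), ¬ HasFull T l → Eqn N q T α β γ →
  Lrg T 𝓊 𝓋 𝓌 → FS1 T 𝓊 → FS1 (fun y x z => T x y z) 𝓋 → FS1 (fun z y x => T x y z) 𝓌 → False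

/-! ## 5. Separation of points on algebraic function rings -/

/-- `e` is a root of a monic polynomial of degree `n` over `K[X]` with coefficients of degree at most `D` -/
def Bdd {K E : Type} [Field K] [Field E] [Algebra (Polynomial K) E] (n D : ℕ) (e : E) : Prop :=
  ∃ P : Polynomial (Polynomial K), P.Monic ∧ P.natDegree = n ∧ (∀ i, (P.coeff i).natDegree ≤ D) ∧
    Polynomial.aeval e P = 0

/-- OVN: the norm of a `K`-combination `a` of the `e_j` is a polynomial of degree at most `[E : K(X)] D`. `a` is integral over `K[X]`, so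
its norm is (`Algebra.isIntegral_norm`) and lies in `K[X]` (integrally closed). At infinity: `e / X^D` is integral over the
valuation ring `O` of the rational functions of degree at most 0 (the coefficient of `(e / X^D)^i` is
`c_i / X^(D (n - i))`), so `a / X^D` is, and its norm `N(a) / X^([E : K(X)] D)` is in `O`. -/
def OVN_stmt : Prop := ∀ (K : Type) [Field K] (E : Type) [Field E] [Algebra K E]
  [Algebra (Polynomial K) E] [Algebra (RatFunc K) E] [IsScalarTower K (Polynomial K) E]
  [IsScalarTower (Polynomial K) (RatFunc K) E] [FiniteDimensional (RatFunc K) E] (J : Type) [Finite J]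
  (e : J → E) (D : ℕ), (∀ j, ∃ n, Bdd (K := K) n D (e j)) → ∀ a ∈ Submodule.span K (Set.range e),
  ∃ p : Polynomial K, Algebra.norm (RatFunc K) a = algebraMap (Polynomial K) (RatFunc K) p ∧
    p.natDegree ≤ Module.finrank (RatFunc K) E * D

/-- OVD: divisibility. Primitive element `θ`, integral over `K[X]`, `f = minpoly K[X] θ` of degree `n' = [E : K(X)]`, separable over
`K(X)`: `U f + V f' = δ` with `U, V ∈ K[X][T]`, `0 ≠ δ ∈ K[X]`; `0 ≠ g ∈ K[X]` with `g e_j ∈ ⊕_{i < n'} K[X] θ^i`. `Bad` = the roots of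
`g δ`. For `c ∉ Bad` the polynomial `f_c = f mod (X - c)` has `n'` different roots `t₀` in `K`, and for every root there is a
`K`-homomorphism `h` of `K[X, e_J]` (contained in `K[X][1/g][θ] = K[X][1/g][T]/(f)`) with `h(X) = c`, `h(θ) = t₀`. Let
`a = g^(-r) ∑_{i<n'} b_i θ^i` be killed by all `h` with `h(X) ∈ C`: `∑ b_i(c) t₀^i = 0` for all `n'` roots, so `b_i(c) = 0`: `b_i` is
divisible by `Π = ∏_{c ∈ C} (X - c)`. So `g^r a = Π a'` with `a'` integral over `K[X]`, `g^(r n') N(a) = Π^n' N(a')`, `N(a') ∈ K[X]`, and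
`g`, `Π` are coprime. -/
def OVD_stmt : Prop := ∀ (K : Type) [Field K] [IsAlgClosed K] (E : Type) [Field E] [Algebra K E]
  [Algebra (Polynomial K) E] [Algebra (RatFunc K) E] [IsScalarTower K (Polynomial K) E]
  [IsScalarTower (Polynomial K) (RatFunc K) E] [FiniteDimensional (RatFunc K) E]
  [Algebra.IsSeparable (RatFunc K) E] (J : Type) [Finite J]
  (e : J → E), (∀ j, IsIntegral (Polynomial K) (e j)) → ∃ Bad : Finset K, ∀ C : Finset K, Disjoint C Bad →
  ∀ (a : E) (ha : a ∈ Algebra.adjoin K (insert (algebraMap (Polynomial K) E Polynomial.X) (Set.range e))),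
  (∀ h : Algebra.adjoin K (insert (algebraMap (Polynomial K) E Polynomial.X) (Set.range e)) →ₐ[K] K,
    h ⟨_, Algebra.subset_adjoin (Set.mem_insert _ _)⟩ ∈ C → h ⟨a, ha⟩ = 0) →
  ∀ p : Polynomial K, Algebra.norm (RatFunc K) a = algebraMap (Polynomial K) (RatFunc K) p →
  (∏ c ∈ C, (Polynomial.X - Polynomial.C c)) ^ Module.finrank (RatFunc K) E ∣ p

/-- OVS: the separable case: `N(a) = p` is divisible by a polynomial of degree `[E : K(X)] |C| > [E : K(X)] D`, so `p = 0`,
`a = 0`. Uses OVN, OVD. -/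
def OVS_stmt : Prop := ∀ (K : Type) [Field K] [IsAlgClosed K] (E : Type) [Field E] [Algebra K E]
  [Algebra (Polynomial K) E] [Algebra (RatFunc K) E] [IsScalarTower K (Polynomial K) E]
  [IsScalarTower (Polynomial K) (RatFunc K) E] [FiniteDimensional (RatFunc K) E]
  [Algebra.IsSeparable (RatFunc K) E] (J : Type) [Finite J]
  (e : J → E) (D : ℕ), (∀ j, ∃ n, Bdd (K := K) n D (e j)) → ∃ Bad : Finset K, ∀ C : Finset K,
  Disjoint C Bad → D < C.card →
  ∀ (a : E) (ha : a ∈ Algebra.adjoin K (insert (algebraMap (Polynomial K) E Polynomial.X) (Set.range e))),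
  a ∈ Submodule.span K (Set.range e) → a ≠ 0 →
  ∃ h : Algebra.adjoin K (insert (algebraMap (Polynomial K) E Polynomial.X) (Set.range e)) →ₐ[K] K,
    h ⟨_, Algebra.subset_adjoin (Set.mem_insert _ _)⟩ ∈ C ∧ h ⟨a, ha⟩ ≠ 0

/-- OVG: the general case. `F` is any field over `K`, `s` transcendental. Characteristic 0: the field `E = K(s)(e_J)` is
finite and separable over `K(s)`, isomorphic to `RatFunc K`. Characteristic `p`: let `p^k` be such that `n ≤ p^(k+1)`,
`p^k ≤ n` (largest power of `p` at most `n`; `n = 0` only if `J` is empty); the `e_j^(p^k)` are separable over `K(s)`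
(`Polynomial.exists_separable_of_irreducible` for the minimal polynomial of degree at most `n`) and roots of the monic
polynomials with coefficients raised to the power `p^k`, of degree at most `p^k D ≤ n D`. `a ≠ 0` is a `K`-combination
of the `e_j`, `a^(p^k)` one of the `e_j^(p^k)`: OVS gives `h` on `K[s, e_j^(p^k)]` with `h(a^(p^k)) ≠ 0`; extend it to `K[s, e_J]`
(EXI): `h(a) ≠ 0`. Uses OVS, EXI. -/
def OVG_stmt : Prop := ∀ (K : Type) [Field K] [IsAlgClosed K] (F : Type) [Field F] [Algebra K F] (s : F),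
  Transcendental K s → ∀ (J : Type) [Finite J] (e : J → F) (n D : ℕ),
  (∀ j, ∃ P : Polynomial (Polynomial K), P.Monic ∧ P.natDegree = n ∧
    (∀ i, (P.coeff i).natDegree ≤ D) ∧
    Polynomial.eval₂ (Polynomial.aeval s : Polynomial K →ₐ[K] F).toRingHom (e j) P = 0) →
  ∃ Bad : Finset K, ∀ C : Finset K, Disjoint C Bad → n * D < C.card →
  ∀ (a : F) (ha : a ∈ Algebra.adjoin K (insert s (Set.range e))),
  a ∈ Submodule.span K (Set.range e) → a ≠ 0 →
  ∃ h : Algebra.adjoin K (insert s (Set.range e)) →ₐ[K] K,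
    h ⟨_, Algebra.subset_adjoin (Set.mem_insert _ _)⟩ ∈ C ∧ h ⟨a, ha⟩ ≠ 0

/-- SPD: several variables, induction on `d`. `d = 0`: the `e_j` are algebraic over `K`, so in `K`. Step: let `s` be the last
variable, `F'` an algebraic closure of `F`, `K₁` the algebraic closure of `K(s)` in `F'`. The other variables are algebraically
independent over `K₁`; the induction hypothesis for `K₁`, `F'`, the same `e_j` (coefficients evaluated at `s`) and the infinite set
`𝓢 ⊆ K ⊆ K₁` gives `C_i ⊆ 𝓢`, `i < d`. The homomorphisms `h₁` from `K₁[λ_0, ..., λ_(d-1), e_J]` to `K₁` with `h₁(λ_i) ∈ C_i` take finitely many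
values at the `e_j`; every value is a root of the monic polynomial of degree `n` over `K[s]` with coefficients (those of
`P_j` at `h₁(λ_i)`) of degree at most `D` in `s`. Apply OVG to `K`, `F'`, `s` and the finite family of all these values, and choose
`C_d ⊆ 𝓢 \ Bad` with `n D + 1` elements. For `a ≠ 0`: `h₁(a) ≠ 0`, a `K`-combination of the values; `h₂(h₁(a)) ≠ 0`. The restriction of
`h₂ ∘ h₁` to `K[λ, e_J]` is well defined, as `h₁` maps `K[λ, e_J]` into `K[s, values]`. Uses OVG. -/
def SPD_stmt : Prop := ∀ (d : ℕ) (K : Type) [Field K] [IsAlgClosed K] (F : Type) [Field F] [Algebra K F]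
  (lam : Fin d → F), AlgebraicIndependent K lam → ∀ (J : Type) [Finite J] (e : J → F) (n D : ℕ),
  (∀ j, ∃ P : Polynomial (MvPolynomial (Fin d) K), P.Monic ∧ P.natDegree = n ∧
    (∀ i k, (P.coeff i).degreeOf k ≤ D) ∧
    Polynomial.eval₂ (MvPolynomial.aeval lam : MvPolynomial (Fin d) K →ₐ[K] F).toRingHom (e j) P = 0) →
  ∀ S : Set K, S.Infinite → ∃ C : Fin d → Finset K, (∀ i, (C i : Set K) ⊆ S ∧ (C i).card = n * D + 1) ∧
  ∀ (a : F) (ha : a ∈ Algebra.adjoin K (Set.range lam ∪ Set.range e)),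
  a ∈ Submodule.span K (Set.range e) → a ≠ 0 →
  ∃ h : Algebra.adjoin K (Set.range lam ∪ Set.range e) →ₐ[K] K,
    (∀ i, h ⟨lam i, Algebra.subset_adjoin (Or.inl ⟨i, rfl⟩)⟩ ∈ C i) ∧ h ⟨a, ha⟩ ≠ 0

/-- UNB: uniform bounds. Noether normalization (`exists_finite_inj_algHom_of_fg`) for `R = K[α]`: `λ_1, ..., λ_d ∈ R`
algebraically independent, `R = ∑_j P ρ_j` a finite module over `P = K[λ]` (with `ρ_1 = 1`). `α_i ρ_j = ∑_j' p_ijj' ρ_j'`, `p_ijj' ∈ P` fixed.
Let `e^N + ∑ c_i e^i = 0`, `c_i ∈ span_K(α)`. Multiplication by `e` on the generators `e^i ρ_j` (`i < N`) is given by a matrix over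
`P` with entries 0, 1 and `K`-combinations of the `p_ijj'`: degrees at most `D₀`. Its characteristic polynomial is
monic of degree `n = N J`, coefficients of degree at most `n D₀`, and `e` is a root (Cayley-Hamilton; the generator 1 is not
zero). If `N = 0` there is no such `e`. -/
def UNB_stmt : Prop := ∀ (K : Type) [Field K] (F : Type) [Field F] [Algebra K F] (t N : ℕ)
  (α : Fin t → F), ∃ (d : ℕ) (lam : Fin d → F), AlgebraicIndependent K lam ∧
  (∀ i, lam i ∈ Algebra.adjoin K (Set.range α)) ∧ ∃ n D : ℕ, ∀ e : F,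
    (∃ c : Fin N → F, (∀ i, c i ∈ Submodule.span K (Set.range α)) ∧
      e ^ N + ∑ i, c i * e ^ (i : ℕ) = 0) →
    ∃ P : Polynomial (MvPolynomial (Fin d) K), P.Monic ∧ P.natDegree = n ∧
      (∀ i k, (P.coeff i).degreeOf k ≤ D) ∧
      Polynomial.eval₂ (MvPolynomial.aeval lam : MvPolynomial (Fin d) K →ₐ[K] F).toRingHom e P = 0

/-- SPR: separation with few values of `α`. UNB; the bound also applies to the elements `α_i` (`α_i^N - α_i α_i^(N-1) = 0`, if
`N ≥ 1`; `J` is empty if `N = 0`). SPD for the family `Sum.elim e α`, `S = univ` (`K` is infinite). A homomorphism with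
`h(λ_i) ∈ C_i` maps `α_i` to a root of one of at most `∏ |C_i|` monic polynomials of degree `n`: the tuple of values is in a set `S` with
at most `m = (n D + 1)^d n^t` elements. `A = adjoin K (range λ ∪ range e ∪ range α)`. Uses UNB, SPD. -/
def SPR_stmt : Prop := ∀ (K : Type) [Field K] [IsAlgClosed K] (F : Type) [Field F] [Algebra K F]
  (t N : ℕ) (α : Fin t → F), ∃ m : ℕ, ∀ (J : Type) [Finite J] (e : J → F),
  (∀ j, ∃ c : Fin N → F, (∀ i, c i ∈ Submodule.span K (Set.range α)) ∧
    e j ^ N + ∑ i, c i * e j ^ (i : ℕ) = 0) →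
  ∃ (S : Finset (Fin t → K)) (A : Subalgebra K F), S.card ≤ m ∧ (∀ i, α i ∈ A) ∧ (∀ j, e j ∈ A) ∧
    ∀ (a : F) (ha : a ∈ A), a ∈ Submodule.span K (Set.range e) → a ≠ 0 →
    ∃ h : A →ₐ[K] K, (∃ s ∈ S, ∀ i (hi : α i ∈ A), h ⟨α i, hi⟩ = s i) ∧ h ⟨a, ha⟩ ≠ 0

/-! ## 6. Stage X: specialisation of one direction -/

/-- FSD: if FS1 fails then the dual tensor is no finite sum of slices. Suppose
`f(t(y,z)) = ∑ a_s(f) b_s(y,z) + ∑ β_s(y) d_s(f,z) + ∑ γ_s(z) f_s(f,y)`, `t(y,z)` the germ. For `v ∈ ker β`, `w ∈ ker γ`: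
`f(t(v,w)) = ∑_{s < p} a_s(f) b_s(v,w)`, so the span of the `t(v,w)` has dimension at most `p` (otherwise there are `p + 1` linearly
independent `t(v_i,w_i)` and dual functionals, the identity matrix of size `p + 1` would have rank at most `p`). Choose a
basis of the span and representatives `L_i`: FS1. -/
def FSD_stmt : Prop := ∀ (K : Type) [Field K] (X Y Z : Type) (T : X → Y → Z → K) (𝓊 : Ultrafilter X),
  ¬ FS1 T 𝓊 → ∀ r, ¬ S3 (fun (f : Module.Dual K (UF 𝓊 fun _ : X => K)) (y : Y) (z : Z) =>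
    f (UF.mk 𝓊 (fun x => T x y z))) r

/-- DST: if the functionals `h i` separate the points of the span of the `t y z` (finite dimensional), every functional is
a combination of the `h i` on the span, so the dual tensor has the decompositions of the tensor `h i (t y z)`. -/
def DST_stmt : Prop := ∀ (K : Type) [Field K] (V : Type) [AddCommGroup V] [Module K V] (Y Z : Type)
  [Finite Y] [Finite Z] (t : Y → Z → V) (H : Type) (h : H → Module.Dual K V),
  (∀ a ∈ Submodule.span K (Set.range fun p : Y × Z => t p.1 p.2), a ≠ 0 → ∃ i, h i a ≠ 0) →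
  ∀ r, S3 (fun (i : H) (y : Y) (z : Z) => h i (t y z)) r →
    S3 (fun (f : Module.Dual K V) (y : Y) (z : Z) => f (t y z)) r

/-- ROW: full minors of the specialised tensor give full minors of `T`. Let the rows be `h_i`, `y_j`, `z_k`. Show by induction on
`t ≤ l`: there are `x_i`, `i < t`, such that the minor with the rows `x_i` (`i < t`) and `h_i` (`i ≥ t`) is full. Step: replace row `t` by
the germs `T(·,y_j,z_k) ∈ A`: full over `UF` by NFS for `h_t` (the other entries are constants); so full for almost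
all `x` in row `t` (LOS, NFC). Uses NFS, LOS, NFC. -/
def ROW_stmt : Prop := ∀ (K : Type) [Field K] [IsAlgClosed K] (X Y Z : Type) (T : X → Y → Z → K)
  (𝓊 : Ultrafilter X) (A : Subalgebra K (UF 𝓊 fun _ : X => K))
  (hA : ∀ y z, UF.mk 𝓊 (fun x => T x y z) ∈ A) (l : ℕ),
  HasFull (fun (h : A →ₐ[K] K) (y : Y) (z : Z) => h ⟨_, hA y z⟩) l → HasFull T l

/-- STX: stage X. Let `n` be given. FSD and CPX (`φ = id`, `l = n`): finitely many `f_i`, `y_j`, `z_k` (`N'` each) with
`¬ S3 (f_i (t(y_j,z_k))) n`. The `e_(j,k) = t(y_j,z_k)` satisfy the equation over the germs `α_is` of the functions `α · i s`, with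
coefficients `c_i = ∑_s (β γ) α_is`. SPR (`m` depends only on the `α_is` and `N`): `S`, `A`. Let `H` be the set of
the `h : A →ₐ[K] K` with values of `α` in `S`, `T̄ : H → Fin N' → Fin N' → K`, `T̄ h j k = h(e_(j,k))`: not `S3 _ n` by DST (extend `h` to linear
functionals), no full `l`-minor by ROW (for the restriction of `T` to the rows `y_j`, `z_k`), `Eqn N q T̄` with `α' h i s = h(α_is)`, at
most `m` values, and the restricted `β`, `γ`. Then UPL with the maximum of `m` and the numbers of values of `β`, `γ`.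
Uses FSD, CPX, SPR, DST, ROW, UPL. -/
def STX_stmt : Prop := ∀ (l : ℕ) (fy fz : Prop) (K : Type) [Field K] [IsAlgClosed K] (X Y Z : Type)
  (T : X → Y → Z → K) (N q : ℕ) (α : X → Fin N → Fin q → K) (β : Y → Fin N → Fin q → K)
  (γ : Z → Fin N → Fin q → K) (𝓊 : Ultrafilter X), ¬ HasFull T l → Eqn N q T α β γ →
  (fy → (Set.range β).Finite) → (fz → (Set.range γ).Finite) → ¬ FS1 T 𝓊 → Ex l True fy fz

/-! ## 7. Assembly -/

/-- SWX: symmetries of `Ex`. -/
def SWX_stmt : Prop := ∀ (l : ℕ) (fx fy fz : Prop),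
  (Ex l fx fy fz → Ex l fy fx fz) ∧ (Ex l fx fy fz → Ex l fz fy fx)

/-- NXT: freeze one more direction. Take `Ex l fx fy fz`, UFS. By CSB one of the three FS1 properties fails, by FZN
(for the permuted tensor) the direction is not frozen, STX (for the permuted tensor), SWX. Uses UFS, CSB, FZN, STX, SWX. -/
def NXT_stmt : Prop := ∀ (l : ℕ) (fx fy fz : Prop), Ex l fx fy fz →
  (¬ fx ∧ Ex l True fy fz) ∨ (¬ fy ∧ Ex l fx True fz) ∨ (¬ fz ∧ Ex l fx fy True)

/-- STA: `Star l` for all `l`. Induction; `Star 0` is trivial (empty minors). If `Star l` and `¬ Star (l + 1)`: UP0 and INT give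
`Ex (l + 1) False False False`; apply NXT at most four times. Uses UP0, INT, NXT. -/
def STA_stmt : Prop := ∀ l : ℕ, Star l

/-- AFD: all fields. CPX for `φ : K →+* AlgebraicClosure K`, `Star l`, then NFM and NFC: a minor which is full over the
algebraic closure is full over `K`. Uses CPX, NFM, NFC, STA. -/
def AFD_stmt : Prop := ∀ l : ℕ, ∃ G : ℕ, ∀ (K : Type) [Field K] (X Y Z : Type) (T : X → Y → Z → K),
  ¬ S3 T G → HasFull T l

/-- SLF: slice rank in the notation of the problem. `G + 1` with `G` of AFD; CV3, AFD, `FS_stmt` of mr: (or FNS, CV3). -/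
def SLF_stmt : Prop := ∃ G : ℕ → ℕ, ∀ (K : Type) [Field K] (Q : Fin 3 → Type)
  (T : ((α : Fin 3) → Q α) → K) (l : ℕ), (G l : ℕ∞) ≤ rank (slices 3) T →
  ∃ X : (α : Fin 3) → Finset (Q α), (∀ α, (X α).card ≤ l) ∧ (l : ℕ∞) ≤ rank (slices 3) (minor T X)

/-- ALL: the final theorem, as `ALL3_stmt` of mr: but without a bound for the number of values. Copy the proof of `ALL3_stmt` in
project mr: (module ALL3), with SLF in place of `SL3_stmt`. Uses SLF, `R0_stmt`, `R1_stmt`, `R2_stmt`, `R3_stmt` of mr:. -/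
def ALL_stmt : Prop := ∃ G : ℕ → ℕ, ∀ (R : Set (IndexPartition 3)), R.Nonempty →
  ∀ (K : Type) [Field K] (Q : Fin 3 → Type) [∀ α, Finite (Q α)] (T : ((α : Fin 3) → Q α) → K)
  (l : ℕ), (G l : ℕ∞) ≤ rank R T →
  ∃ X : (α : Fin 3) → Finset (Q α), (∀ α, (X α).card ≤ l) ∧ (l : ℕ∞) ≤ rank R (minor T X)

end Pool.Agent.helper26.IM
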